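import Mathlib

set_option autoImplicit false

namespace Pool.Agent.H.MP_ded1c1b5_al

open Equiv

/-- the automorphism group of the binary rooted tree -/
def AutT : Subgroup (Perm (List Bool)) where
  carrier := {g | (∀ w, (g w).length = w.length) ∧ ∀ v w, v <+: w ↔ g v <+: g w}
  mul_mem' := fun {a b} ha hb => ⟨fun w => by simp [ha.1, hb.1], fun v w => (hb.2 v w).trans (ha.2 _ _)⟩
  one_mem' := ⟨fun _ => rfl, fun _ _ => Iff.rfl⟩
  inv_mem' := fun {a} ha => ⟨fun w => by rw [← ha.1]; simp, fun v w => by rw [ha.2 (a⁻¹ v)]; simp⟩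

/-- pointwise convergence, the vertex set being discrete -/
instance top : TopologicalSpace AutT :=
  .induced (fun g w => g.1 w) (@Pi.topologicalSpace (List Bool) (fun _ => List Bool) fun _ => ⊥)

/-- rigid vertex stabiliser -/
def rist (v : List Bool) : Subgroup AutT where
  carrier := {g | ∀ w, ¬ v <+: w → g.1 w = w}
  mul_mem' := fun {a b} ha hb w hw => by simp [hb w hw, ha w hw]
  one_mem' := fun _ _ => rfl
  inv_mem' := fun {a} ha w hw => Perm.inv_eq_iff_eq.2 (ha w hw).symm

/-- rigid level stabiliser -/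
def ristL (m : ℕ) : Subgroup AutT := ⨆ v : {v : List Bool // v.length = m}, rist v.1

end Pool.Agent.H.MP_ded1c1b5_al
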