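import Mathlib
import Pool.Agent.H.MP_ded1c1b5_al.Defs

set_option autoImplicit false

namespace Pool.Agent.H.MP_ded1c1b5_al

open Equiv

def Fam (G : Type*) [Group G] (ι : Type) : Prop :=
  ∃ M : ι → Subgroup G, (∀ i, (M i).Normal ∧ M i ≠ ⊥) ∧ ∀ i j, i ≠ j → ∀ a ∈ M i, ∀ b ∈ M j, a * b = b * a

theorem Fam.equiv {G H : Type*} [Group G] [Group H] {ι : Type} (e : G ≃* H) : Fam G ι → Fam H ι := by
  rintro ⟨M, h1, h2⟩
  refine ⟨fun i => (M i).map e, fun i => ⟨(h1 i).1.map _ e.surjective, fun h => (h1 i).2 ?_⟩, ?_⟩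
  · exact (Subgroup.map_eq_bot_iff_of_injective _ e.injective).1 h
  · rintro i j h _ ⟨a, ha, rfl⟩ _ ⟨b, hb, rfl⟩
    rw [← map_mul, h2 i j h a ha b hb, map_mul]

theorem Fam.inj {G : Type*} [Group G] {ι κ : Type} (f : κ → ι) (hf : f.Injective) : Fam G ι → Fam G κ :=
  fun ⟨M, h1, h2⟩ => ⟨fun k => M (f k), fun k => h1 _, fun _ _ h => h2 _ _ (hf.ne h)⟩

theorem Fam.pi {K : Type*} [Group K] {ι : Type} : Fam K ι → Fam (Fin 3 → K) (Fin 3 × ι) := by
  rintro ⟨M, h1, h2⟩
  refine ⟨fun p => (M p.2).map (MonoidHom.mulSingle (fun _ => K) p.1), fun p => ⟨⟨?_⟩, fun h => (h1 p.2).2 ?_⟩, ?_⟩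
  · rintro _ ⟨a, ha, rfl⟩ g
    refine ⟨_, (h1 p.2).1.conj_mem a ha (g p.1), funext fun i => ?_⟩
    by_cases e : i = p.1 <;> simp [e]
  · exact (Subgroup.map_eq_bot_iff_of_injective _ (Pi.mulSingle_injective (M := fun _ => K) p.1)).1 h
  · rintro ⟨i, x⟩ ⟨j, y⟩ h _ ⟨a, ha, rfl⟩ _ ⟨b, hb, rfl⟩
    by_cases e : i = j
    · subst e
      rw [← map_mul, h2 x y (fun e => h (by rw [e])) a ha b hb, map_mul]
    · exact Pi.mulSingle_commute (f := fun _ => K) e a b

theorem Fam.of_pi {K : Type*} [Group K] {ι : Type} : Fam (Fin 3 → K) ι → ∃ c : ι → Fin 3, ∀ j, Fam K {i // c i = j} := by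
  rintro ⟨M, h1, h2⟩
  have : ∀ i, ∃ j, (M i).map (Pi.evalMonoidHom (fun _ => K) j) ≠ ⊥ := fun i => by
    by_contra h
    push Not at h
    refine (h1 i).2 (eq_bot_iff.2 fun a ha => funext fun j => ?_)
    exact Subgroup.mem_bot.1 (h j ▸ Subgroup.mem_map_of_mem _ ha)
  choose c hc using this
  refine ⟨c, fun j => ⟨fun i => (M i.1).map (Pi.evalMonoidHom (fun _ => K) j), fun i =>
    ⟨(h1 i).1.map _ (Function.surjective_eval j), by obtain ⟨i, rfl⟩ := i; exact hc i⟩, ?_⟩⟩
  rintro i i' h _ ⟨a, ha, rfl⟩ _ ⟨b, hb, rfl⟩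
  rw [← map_mul, h2 _ _ (Subtype.val_injective.ne h) a ha b hb, map_mul]

def insF : List Bool → (List Bool → List Bool) → List Bool → List Bool
  | [], h, l => h l
  | _ :: _, _, [] => []
  | y :: p, h, x :: u => x :: if x = y then insF p h u else u

theorem insF_app (p h u) : insF p h (p ++ u) = p ++ h u := by
  induction p with
  | nil => rfl
  | cons y p ih => simp [insF, ih]

theorem insF_not (p h l) (H : ¬ p <+: l) : insF p h l = l := by
  induction p generalizing l with
  | nil => simp at H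
  | cons y p ih =>
    cases l with
    | nil => rfl
    | cons x u =>
      simp only [insF]
      split_ifs with e
      · rw [ih u fun h => H (e ▸ List.cons_prefix_cons.2 ⟨rfl, h⟩)]
      · rfl

theorem mem_of {g : Perm (List Bool)} (h1 : ∀ w, (g w).length = w.length) (h2 : ∀ v w, v <+: w → g v <+: g w) : g ∈ AutT := by
  refine ⟨h1, fun v w => ⟨h2 v w, fun h => ?_⟩⟩
  have l : v.length ≤ w.length := by simpa [h1] using h.length_le
  have a := h2 _ _ (List.take_prefix v.length w)
  have := (List.prefix_of_prefix_length_le h a (by simp [h1, l])).eq_of_length (by simp [h1, l])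
  exact g.injective this ▸ List.take_prefix _ _

def ins (p : List Bool) (h : AutT) : AutT := ⟨⟨insF p h.1, insF p h⁻¹.1, fun l => by
    by_cases e : p <+: l
    · obtain ⟨u, rfl⟩ := e; simp [insF_app]
    · simp [insF_not _ _ _ e], fun l => by
    by_cases e : p <+: l
    · obtain ⟨u, rfl⟩ := e; simp [insF_app]
    · simp [insF_not _ _ _ e]⟩, mem_of (fun l => by
    by_cases e : p <+: l
    · obtain ⟨u, rfl⟩ := e; simp [insF_app, h.2.1]
    · simp [insF_not _ _ _ e]) fun v w => by
    change _ → insF p h.1 v <+: insF p h.1 w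
    induction p generalizing v w with
    | nil => exact (h.2.2 v w).1
    | cons y p ih =>
      rintro ⟨u, rfl⟩
      cases v with
      | nil => exact List.nil_prefix
      | cons x v =>
        simp only [insF, List.cons_append, List.cons_prefix_cons, true_and]
        split_ifs
        · exact ih _ _ (List.prefix_append _ _)
        · exact List.prefix_append _ _⟩

theorem ins_app (p h u) : (ins p h).1 (p ++ u) = p ++ h.1 u := insF_app _ _ _

theorem ins_rist (p h) : ins p h ∈ rist p := fun _ H => insF_not _ _ _ H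

def f0 : AutT := ⟨Function.Involutive.toPerm (fun l => match l with | [] => [] | x :: u => (!x) :: u) (by rintro (_ | _) <;> simp),
  mem_of (by rintro (_ | _) <;> rfl) (by
    rintro (_ | _) _ ⟨u, rfl⟩
    · exact List.nil_prefix
    · exact List.cons_prefix_cons.2 ⟨rfl, List.prefix_append _ _⟩)⟩

theorem fl_app (p x u) : (ins p f0).1 (p ++ x :: u) = p ++ (!x) :: u := ins_app _ _ _

theorem rist_mono {p q : List Bool} (h : p <+: q) : rist q ≤ rist p := fun _ hg w hw => hg w fun e => hw (h.trans e)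

theorem trans (u : List Bool) : ∀ p u' : List Bool, u.length = u'.length → ∃ t ∈ rist p, t.1 (p ++ u) = p ++ u' := by
  induction u with
  | nil => exact fun p u' h => ⟨1, one_mem _, by rw [List.length_eq_zero_iff.1 h.symm]; rfl⟩
  | cons x u ih =>
    rintro p (_ | ⟨y, u'⟩) h
    · simp at h
    obtain ⟨t, h1, h2⟩ := ih (p ++ [y]) u' (by simpa using h)
    replace h1 := rist_mono (List.prefix_append _ _) h1
    by_cases e : x = y
    · exact ⟨t, h1, by simpa [e] using h2⟩
    · refine ⟨t * ins p f0, mul_mem h1 (ins_rist _ _), ?_⟩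
      have : (!x) = y := by cases x <;> cases y <;> simp at e ⊢
      simpa [fl_app, this] using h2

theorem sect (g : AutT) (p) (h : g.1 p = p) : ∃ k : AutT, ∀ u, g.1 (p ++ u) = p ++ k.1 u := by
  have a : ∀ g : AutT, g.1 p = p → ∀ u, g.1 (p ++ u) = p ++ (g.1 (p ++ u)).drop p.length := fun g h u => by
    obtain ⟨z, hz⟩ := h ▸ (g.2.2 p _).1 (List.prefix_append p u)
    rw [← hz]; simp
  have b := a g⁻¹ (Perm.inv_eq_iff_eq.2 h.symm)
  refine ⟨⟨⟨fun u => (g.1 (p ++ u)).drop p.length, fun u => (g⁻¹.1 (p ++ u)).drop p.length, fun u => ?_, fun u => ?_⟩,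
    mem_of (fun w => by simp [g.2.1]) fun v w H => ?_⟩, a g h⟩
  · simp only; rw [← a g h]; simp
  · simp only; rw [← b]; simp
  · have := (g.2.2 (p ++ v) (p ++ w)).1 ((List.prefix_append_right_inj p).2 H)
    rw [a g h, a g h w] at this
    exact (List.prefix_append_right_inj p).1 this

theorem fix_pre (g : AutT) {v w : List Bool} (h : v <+: w) (e : g.1 w = w) : g.1 v = v :=
  (List.prefix_of_prefix_length_le (e ▸ (g.2.2 v w).1 h) h (g.2.1 v).le).eq_of_length (g.2.1 v)

theorem dec (m : ℕ) : ∀ p, ∀ g ∈ rist p, (∀ w : List Bool, w.length = p.length + m → g.1 w = w) → g ∈ ristL (p.length + m) := by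
  induction m with
  | zero => exact fun p g h _ => Subgroup.mem_iSup_of_mem ⟨p, rfl⟩ h
  | succ m ih =>
    intro p g h H
    have fx : ∀ x, g.1 (p ++ [x]) = p ++ [x] := fun x =>
      fix_pre g (List.prefix_append _ (List.replicate m true)) (H _ (by simp))
    choose k hk using fun x => sect g _ (fx x)
    have a : ∀ x, ins (p ++ [x]) (k x) ∈ ristL (p.length + (m + 1)) := fun x => by
      have := ih (p ++ [x]) _ (ins_rist _ (k x)) fun w hw => by
        by_cases e : p ++ [x] <+: w
        · obtain ⟨u, rfl⟩ := e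
          rw [ins_app, ← hk, H _ (by simp at hw ⊢; omega)]
        · exact ins_rist _ _ w e
      simpa [add_assoc, add_comm 1] using this
    have : g = ins (p ++ [true]) (k true) * ins (p ++ [false]) (k false) := Subtype.ext (Equiv.ext fun w => by
      change _ = (ins _ _).1 ((ins _ _).1 w)
      by_cases e : p <+: w
      · obtain ⟨_ | ⟨x, u⟩, rfl⟩ := e
        · have n : ∀ x, ¬ p ++ [x] <+: p ++ [] := fun x e => by simpa using e.length_le
          rw [ins_rist _ (k false) _ (n _), ins_rist _ _ _ (n _)]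
          simpa using fix_pre g (List.prefix_append _ _) (fx true)
        · cases x
          · rw [List.append_cons, ins_app, ins_rist _ _ _ (by simp), hk]
          · rw [ins_rist _ (k false) _ (by simp), List.append_cons, ins_app, hk]
      · rw [h w e, rist_mono (List.prefix_append _ _) (ins_rist _ _) w e, rist_mono (List.prefix_append _ _) (ins_rist _ _) w e])
    exact this ▸ mul_mem (a _) (a _)

theorem mem_ristL (m : ℕ) (g : AutT) : g ∈ ristL m ↔ ∀ w : List Bool, w.length = m → g.1 w = w := by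
  refine ⟨fun h => ?_, fun h => by simpa using dec m [] g (fun w hw => by simp at hw) (by simpa using h)⟩
  induction h using Subgroup.iSup_induction' with
  | hp v g hg =>
    intro w hw
    by_cases e : v.1 <+: w
    · obtain rfl := e.eq_of_length (v.2.trans hw.symm)
      by_contra n
      exact n (g.1.injective (hg _ fun e => n (e.eq_of_length (g.2.1 _).symm).symm))
    · exact hg w e
  | h1 => exact fun _ _ => rfl
  | hmul a b _ _ ha hb => exact fun w hw => by simp [hb w hw, ha w hw]

theorem conj_rist (g : AutT) {a : AutT} {w} (h : a ∈ rist w) : g * a * g⁻¹ ∈ rist (g.1 w) := fun l hl => by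
  have : ¬ w <+: g⁻¹.1 l := fun e => hl (by simpa using (g.2.2 _ _).1 e)
  simp only [Subgroup.coe_mul, Perm.mul_apply, h _ this]
  simp

theorem fam1 (m : ℕ) : Fam (ristL m) {v : List Bool // v.length = m} := by
  refine ⟨fun v => (rist v.1).subgroupOf _, fun v => ⟨⟨fun a ha g => ?_⟩, fun h => ?_⟩, fun v w h a ha b hb => ?_⟩
  · have := conj_rist g.1 ha
    rwa [(mem_ristL m _).1 g.2 _ v.2] at this
  · have : (⟨ins v.1 f0, Subgroup.mem_iSup_of_mem v (ins_rist _ _)⟩ : ristL m) ∈ (rist v.1).subgroupOf _ := ins_rist _ _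
    have := congrArg (fun g : ristL m => g.1.1 (v.1 ++ [true])) (Subgroup.mem_bot.1 (h.le this))
    simp [fl_app] at this
  · have n : ∀ l, v.1 <+: l → ¬ w.1 <+: l := fun l h1 h2 =>
      h (Subtype.ext ((List.prefix_of_prefix_length_le h1 h2 (v.2.trans w.2.symm).le).eq_of_length (v.2.trans w.2.symm)))
    have k : ∀ (c : ristL m) (v : {v : List Bool // v.length = m}) l, v.1 <+: l → v.1 <+: c.1.1 l := fun c v l e =>
      (mem_ristL m _).1 c.2 _ v.2 ▸ (c.1.2.2 _ _).1 e
    refine Subtype.ext (Subtype.ext (Equiv.ext fun l => ?_))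
    change a.1.1 (b.1.1 l) = b.1.1 (a.1.1 l)
    replace ha : ∀ l, ¬ v.1 <+: l → a.1.1 l = l := ha
    replace hb : ∀ l, ¬ w.1 <+: l → b.1.1 l = l := hb
    by_cases e : v.1 <+: l
    · rw [hb l (n l e), hb _ (n _ (k a v l e))]
    · rw [ha l e]
      by_cases e' : w.1 <+: l
      · exact ha _ fun x => n _ x (k b w l e')
      · rw [hb l e', ha l e]

theorem fam2 (m : ℕ) {ι : Type} [Finite ι] (h : Fam (ristL m) ι) : Nat.card ι ≤ Nat.card {v : List Bool // v.length = m} := by
  obtain ⟨M, h1, h2⟩ := h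
  have : Finite {v : List Bool // v.length = m} := (List.finite_length_eq Bool m).to_subtype
  have : ∀ i, ∃ (v : {v : List Bool // v.length = m}) (L : ℕ), ∀ u : List Bool, L ≤ u.length → ∃ g ∈ M i, g.1.1 (v.1 ++ u) ≠ v.1 ++ u := fun i => by
    obtain ⟨⟨g, hg⟩, n⟩ := Subgroup.ne_bot_iff_exists_ne_one.1 (h1 i).2
    obtain ⟨w, hw⟩ : ∃ w, g.1.1 w ≠ w := by
      by_contra H
      push Not at H
      exact n (Subtype.ext (Subtype.ext (Subtype.ext (Equiv.ext H))))
    let w' := w ++ List.replicate m true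
    refine ⟨⟨w'.take m, by simp [w']⟩, (w'.drop m).length, fun u hu => ?_⟩
    obtain ⟨t, ht, e⟩ := trans (w'.drop m ++ List.replicate (u.length - (w'.drop m).length) true) (w'.take m) u
      (by rw [List.length_append, List.length_replicate]; omega)
    refine ⟨_, (h1 i).1.conj_mem g hg ⟨t, Subgroup.mem_iSup_of_mem ⟨w'.take m, by simp [w']⟩ ht⟩, fun x => hw ?_⟩
    simp only [← e] at x
    refine fix_pre g.1 ?_ (by simpa using x)
    rw [← List.append_assoc, List.take_append_drop]
    exact (List.prefix_append w _).trans (List.prefix_append _ _)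
  choose v L hv using this
  refine Nat.card_le_card_of_injective v fun i j e => by_contra fun n => ?_
  let w := (v i).1 ++ List.replicate (L i + L j) true
  have cm : ∀ i, ∀ g ∈ M i, g.1.1 w ≠ w → ∀ p, w <+: p → ∃ c ∈ M i, ∀ l, w <+: l → c.1.1 l = (ins p f0).1 l := fun k g hg x p hp => by
    have a := rist_mono hp (ins_rist p f0)
    let s : ristL m := ⟨ins p f0, Subgroup.mem_iSup_of_mem (v i) (rist_mono (List.prefix_append _ _) a)⟩
    refine ⟨s * (g * s⁻¹ * g⁻¹), ?_, fun l hl => ?_⟩
    · have := mul_mem ((h1 k).1.conj_mem g hg s) (inv_mem hg)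
      simpa [mul_assoc] using this
    · have := conj_rist g.1 (inv_mem a) l fun y =>
        x ((List.prefix_of_prefix_length_le y hl (g.1.2.1 w).le).eq_of_length (g.1.2.1 w))
      exact congrArg (ins p f0).1 this
  obtain ⟨g, hg, x⟩ := hv i (List.replicate (L i + L j) true) (by simp)
  obtain ⟨g', hg', x'⟩ := hv j (List.replicate (L i + L j) true) (by simp)
  rw [← e] at x'
  obtain ⟨a, ha, a1⟩ := cm i g hg x w List.prefix_rfl
  obtain ⟨b, hb, b1⟩ := cm j g' hg' x' (w ++ [false]) (List.prefix_append _ _)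
  have := congrArg (fun g : ristL m => g.1.1 (w ++ [false, false])) (h2 i j n a ha b hb)
  change a.1.1 (b.1.1 _) = b.1.1 (a.1.1 _) at this
  have e1 : (ins (w ++ [false]) f0).1 (w ++ [false, false]) = w ++ [false, true] := by
    simpa using fl_app (w ++ [false]) false []
  rw [a1 (w ++ [false, false]) (List.prefix_append _ _), fl_app, b1 (w ++ [false, false]) (List.prefix_append _ _),
    e1, a1 _ (List.prefix_append _ _), b1 _ (List.prefix_append _ _),
    ins_rist (w ++ [false]) _ _ (by simp)] at this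
  simp [fl_app] at this

end Pool.Agent.H.MP_ded1c1b5_al
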